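import Pool.Agent.Lib_helper53.BS.Defs

/-! Block SPL: splitting off finitely many atoms. -/

set_option autoImplicit false

namespace Pool.Agent.BS

open Finset Filter MeasureTheory Topology
open scoped Classical

theorem spl_atoms (μ : Measure Circle) (hμf : IsFiniteMeasure μ) :
    {z : Circle | μ {z} ≠ 0}.Countable := by
  have h := Measure.countable_meas_pos_of_disjoint_iUnion (μ := μ) (As := fun z : Circle => {z})
    (fun z => measurableSet_singleton z) (by
      intro x y hxy
      exact Set.disjoint_singleton.2 hxy)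
  refine h.mono fun z hz => ?_
  exact pos_iff_ne_zero.2 hz

theorem spl_fin (μ : Measure Circle) (hμf : IsFiniteMeasure μ) {A : Set Circle}
    (hA : A.Countable) (κ : ℝ) (hκ : 0 < κ) :
    ∃ F : Finset Circle, (F : Set Circle) ⊆ A ∧ μ.real (A \ F) ≤ κ := by
  have h1 : μ (⋃ z ∈ A, {z}) = ∑' p : A, μ {(p : Circle)} :=
    measure_biUnion hA (fun x _ y _ hxy => Set.disjoint_singleton.2 hxy)
      (fun z _ => measurableSet_singleton z)
  rw [Set.biUnion_of_singleton] at h1
  have hne : ∑' p : A, μ {(p : Circle)} ≠ ⊤ := by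
    rw [← h1]
    exact measure_ne_top μ A
  have h2 : HasSum (fun p : A => (μ {(p : Circle)}).toReal) (μ.real A) := by
    have h3 := ENNReal.hasSum_toReal hne
    rw [← ENNReal.tsum_toReal_eq (fun p => measure_ne_top μ _), ← h1] at h3
    exact h3
  have h4 := (Metric.tendsto_nhds.1 h2) κ hκ
  obtain ⟨s, hs⟩ := h4.exists
  refine ⟨s.map ⟨Subtype.val, Subtype.val_injective⟩, ?_, ?_⟩
  · intro z hz
    rw [Finset.mem_coe, Finset.mem_map] at hz
    obtain ⟨p, -, rfl⟩ := hz
    exact p.2
  · have hsub : ((s.map ⟨Subtype.val, Subtype.val_injective⟩ : Finset Circle) : Set Circle) ⊆ A := by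
      intro z hz
      rw [Finset.mem_coe, Finset.mem_map] at hz
      obtain ⟨p, -, rfl⟩ := hz
      exact p.2
    have h5 : μ.real ((s.map ⟨Subtype.val, Subtype.val_injective⟩ : Finset Circle) : Set Circle) =
        ∑ p ∈ s, (μ {(p : Circle)}).toReal := by
      rw [← sum_measureReal_singleton, Finset.sum_map]
      rfl
    rw [measureReal_sdiff hsub (Finset.measurableSet _), h5]
    rw [Real.dist_eq] at hs
    have := abs_lt.1 hs
    linarith

/-- SPL -/
theorem split_pr (μ : Measure Circle) (hμf : IsFiniteMeasure μ) (κ : ℝ) (hκ : 0 < κ) :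
    ∃ (F : Finset Circle) (ν : Measure Circle), 1 ∈ F ∧ IsFiniteMeasure ν ∧
      (∀ z : Circle, ν {z} = 0) ∧ ∀ t : ℕ, |∫ z : Circle, ((z : ℂ) ^ t).re ∂μ -
        ∑ z ∈ F, μ.real {z} * ((z : ℂ) ^ t).re - ∫ z : Circle, ((z : ℂ) ^ t).re ∂ν| ≤ κ := by
  have hA := spl_atoms μ hμf
  set A : Set Circle := {z : Circle | μ {z} ≠ 0} with hAdef
  have hA' : (insert 1 A).Countable := hA.insert 1
  obtain ⟨F₀, hF₀, hF₀κ⟩ := spl_fin μ hμf hA' κ hκ
  have hFsub : ((insert 1 F₀ : Finset Circle) : Set Circle) ⊆ insert 1 A := by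
    rw [Finset.coe_insert]
    exact Set.insert_subset (Set.mem_insert _ _) hF₀
  have hm : MeasurableSet (insert 1 A) := hA'.measurableSet
  refine ⟨insert 1 F₀, μ.restrict (insert 1 A)ᶜ, Finset.mem_insert_self _ _, inferInstance, ?_, ?_⟩
  · intro z
    rw [Measure.restrict_apply (measurableSet_singleton z)]
    by_cases hz : z ∈ insert 1 A
    · have : ({z} : Set Circle) ∩ (insert 1 A)ᶜ = ∅ := by
        rw [Set.singleton_inter_eq_empty]
        exact fun h => h hz
      rw [this, measure_empty]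
    · have h0 : μ {z} = 0 := by
        by_contra h
        exact hz (Set.mem_insert_of_mem _ h)
      exact measure_mono_null Set.inter_subset_left h0
  · intro t
    have hc : Continuous fun z : Circle => ((z : ℂ) ^ t).re :=
      Complex.continuous_re.comp (continuous_subtype_val.pow t)
    have hb : ∀ z : Circle, ‖((z : ℂ) ^ t).re‖ ≤ 1 := by
      intro z
      refine (Complex.abs_re_le_norm _).trans ?_
      rw [norm_pow, Circle.norm_coe, one_pow]
    have hi : Integrable (fun z : Circle => ((z : ℂ) ^ t).re) μ :=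
      Integrable.of_bound hc.aestronglyMeasurable 1 (Eventually.of_forall hb)
    have h1 := integral_add_compl hm hi
    have h2 : ∫ z in insert 1 A, ((z : ℂ) ^ t).re ∂μ =
        (∫ z in ((insert 1 F₀ : Finset Circle) : Set Circle), ((z : ℂ) ^ t).re ∂μ) +
          ∫ z in (insert 1 A) \ ((insert 1 F₀ : Finset Circle) : Set Circle),
            ((z : ℂ) ^ t).re ∂μ := by
      rw [← setIntegral_union Set.disjoint_sdiff_right
        (hm.diff (Finset.measurableSet _)) hi.integrableOn hi.integrableOn,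
        Set.union_sdiff_cancel hFsub]
    rw [setIntegral_finset (s := insert 1 F₀) (f := fun z : Circle => ((z : ℂ) ^ t).re) (μ := μ) hi.integrableOn] at h2
    have h3 : |∫ z in (insert 1 A) \ ((insert 1 F₀ : Finset Circle) : Set Circle),
        ((z : ℂ) ^ t).re ∂μ| ≤ κ := by
      have h4 := norm_setIntegral_le_of_norm_le_const (μ := μ)
        (s := (insert 1 A) \ ((insert 1 F₀ : Finset Circle) : Set Circle)) (C := 1)
        (f := fun z : Circle => ((z : ℂ) ^ t).re) (measure_lt_top _ _) (fun z _ => hb z)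
      rw [Real.norm_eq_abs, one_mul] at h4
      refine h4.trans ((measureReal_mono ?_ (measure_ne_top _ _)).trans hF₀κ)
      rw [Finset.coe_insert]
      exact Set.sdiff_subset_sdiff_right (Set.subset_insert _ _)
    have h5 : ∫ z : Circle, ((z : ℂ) ^ t).re ∂μ -
        ∑ z ∈ insert 1 F₀, μ.real {z} * ((z : ℂ) ^ t).re -
          ∫ z : Circle, ((z : ℂ) ^ t).re ∂(μ.restrict (insert 1 A)ᶜ) =
        ∫ z in (insert 1 A) \ ((insert 1 F₀ : Finset Circle) : Set Circle),
          ((z : ℂ) ^ t).re ∂μ := by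
      have h6 : ∑ z ∈ insert 1 F₀, μ.real {z} * ((z : ℂ) ^ t).re =
          ∑ z ∈ insert 1 F₀, μ.real {z} • ((z : ℂ) ^ t).re := rfl
      rw [h6]
      linarith
    rw [h5]
    exact h3

end Pool.Agent.BS
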